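import Mathlib

/-!
Weak `M`-structures (Odesskii–Sokolov) and the matrix of multiplicities.
-/

set_option autoImplicit false

namespace Pool.Agent.Lib.MP_b9cab9_al

universe u v w

/-- `l` is a (unital, `ℂ`-bilinear) left action of the algebra `B` on the space `L`. -/
structure IsLeftAction {B : Type v} {L : Type w} [Ring B] [Algebra ℂ B] [AddCommGroup L] [Module ℂ L]
    (l : B → L → L) : Prop where
  add_left : ∀ (b b' : B) (x : L), l (b + b') x = l b x + l b' x
  smul_left : ∀ (c : ℂ) (b : B) (x : L), l (c • b) x = c • l b x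
  add_right : ∀ (b : B) (x y : L), l b (x + y) = l b x + l b y
  smul_right : ∀ (c : ℂ) (b : B) (x : L), l b (c • x) = c • l b x
  one : ∀ x : L, l 1 x = x
  mul : ∀ (b b' : B) (x : L), l (b * b') x = l b (l b' x)

/-- `r` is a (unital, `ℂ`-bilinear) right action of the algebra `A` on the space `L`; `r a x` stands
for `x a`. -/
structure IsRightAction {A : Type u} {L : Type w} [Ring A] [Algebra ℂ A] [AddCommGroup L] [Module ℂ L]
    (r : A → L → L) : Prop where
  add_left : ∀ (a a' : A) (x : L), r (a + a') x = r a x + r a' x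
  smul_left : ∀ (c : ℂ) (a : A) (x : L), r (c • a) x = c • r a x
  add_right : ∀ (a : A) (x y : L), r a (x + y) = r a x + r a y
  smul_right : ∀ (c : ℂ) (a : A) (x : L), r a (c • x) = c • r a x
  one : ∀ x : L, r 1 x = x
  mul : ∀ (a a' : A) (x : L), r (a * a') x = r a' (r a x)

/-- The algebras `A` and `B` are embedded in `L` as subspaces by the injective linear maps `iA` and
`iB`, both units going to the distinguished element `one` of `L`, and `A ∩ B = ℂ 1`. -/
structure IsSubspacePair {A : Type u} {B : Type v} {L : Type w}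
    [Ring A] [Algebra ℂ A] [Ring B] [Algebra ℂ B] [AddCommGroup L] [Module ℂ L]
    (one : L) (iA : A → L) (iB : B → L) : Prop where
  linear_A : IsLinearMap ℂ iA
  linear_B : IsLinearMap ℂ iB
  injective_A : Function.Injective iA
  injective_B : Function.Injective iB
  one_A : iA 1 = one
  one_B : iB 1 = one
  inter : ∀ x : L, (∃ a : A, iA a = x) → (∃ b : B, iB b = x) → ∃ c : ℂ, x = c • one

/-- `form` is a nondegenerate symmetric bilinear form on `L`. -/
structure IsSymmForm {L : Type w} [AddCommGroup L] [Module ℂ L] (form : L → L → ℂ) : Prop where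
  add : ∀ x y z : L, form (x + y) z = form x z + form y z
  smul : ∀ (c : ℂ) (x y : L), form (c • x) y = c * form x y
  symm : ∀ x y : L, form x y = form y x
  nondegenerate : ∀ x : L, (∀ y : L, form x y = 0) → x = 0

/-- A weak `M`-structure on the finite-dimensional space `L` with algebras `A` and `B`: `l b x = b x`
is the left action of `B`, `r a x = x a` the right action of `A`, and `iA`, `iB` are the inclusions of
`A` and `B` in `L`. -/
structure WeakMStructure (A : Type u) (B : Type v) (L : Type w)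
    [Ring A] [Algebra ℂ A] [Ring B] [Algebra ℂ B] [AddCommGroup L] [Module ℂ L] where
  one : L
  iA : A → L
  iB : B → L
  l : B → L → L
  r : A → L → L
  form : L → L → ℂ
  finiteDimensional : FiniteDimensional ℂ L
  subspaces : IsSubspacePair one iA iB
  left_action : IsLeftAction l
  right_action : IsRightAction r
  /-- the two actions commute -/
  comm : ∀ (a : A) (b : B) (x : L), l b (r a x) = r a (l b x)
  /-- the right action of `A` restricts to the multiplication of `A` -/
  mul_A : ∀ a a' : A, r a' (iA a) = iA (a * a')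
  /-- the left action of `B` restricts to the multiplication of `B` -/
  mul_B : ∀ b b' : B, l b (iB b') = iB (b * b')
  symm_form : IsSymmForm form
  form_AA : ∀ a a' : A, form (iA a) (iA a') = 0
  form_BB : ∀ b b' : B, form (iB b) (iB b') = 0
  form_B : ∀ (b b' : B) (x : L), form (iB (b * b')) x = form (iB b) (l b' x)
  form_A : ∀ (x : L) (a a' : A), form x (iA (a * a')) = form (r a x) (iA a')

/-- The algebra `⊕_i End(ℂ^(m i))`. -/
abbrev SumEnd {r : ℕ} (m : Fin r → ℕ) : Type := ∀ i : Fin r, Matrix (Fin (m i)) (Fin (m i)) ℂ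

/-- The space `⊕_{i,j} Hom(ℂ^(m i), ℂ^(n j))^(a i j)`. -/
abbrev SumHom {r s : ℕ} (a : Fin r → Fin s → ℕ) (m : Fin r → ℕ) (n : Fin s → ℕ) : Type :=
  ∀ (i : Fin r) (j : Fin s), Fin (a i j) → Matrix (Fin (n j)) (Fin (m i)) ℂ

/-- `φ`, `ψ`, `χ` are compatible with the actions `l` and `r` and with the composition of maps. -/
def IsEquivariant {A : Type u} {B : Type v} {L : Type w} {r' s : ℕ}
    {a : Fin r' → Fin s → ℕ} {m : Fin r' → ℕ} {n : Fin s → ℕ} (l : B → L → L) (r : A → L → L)
    (φ : A → SumEnd m) (ψ : B → SumEnd n) (χ : L → SumHom a m n) : Prop :=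
  ∀ (i : Fin r') (j : Fin s) (e : Fin (a i j)) (x : L),
    (∀ b : B, χ (l b x) i j e = ψ b j * χ x i j e) ∧
    (∀ a' : A, χ (r a' x) i j e = χ x i j e * φ a' i)

/-- `A ≅ ⊕_i End(V_i)` and `B ≅ ⊕_j End(W_j)` with `dim V_i = m i`, `dim W_j = n j`, and, as a module
over both algebras, `L ≅ ⊕_{i,j} Hom(V_i, W_j)^{a i j}` (here `Hom(V_i, W_j) = V_i^* ⊗ W_j` is the space
of `n j × m i` matrices). -/
def WeakMStructure.HasMultiplicities {A : Type u} {B : Type v} {L : Type w}
    [Ring A] [Algebra ℂ A] [Ring B] [Algebra ℂ B] [AddCommGroup L] [Module ℂ L]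
    (S : WeakMStructure A B L) {r s : ℕ} (a : Fin r → Fin s → ℕ) (m : Fin r → ℕ) (n : Fin s → ℕ) :
    Prop :=
  ∃ (φ : A ≃ₐ[ℂ] SumEnd m) (ψ : B ≃ₐ[ℂ] SumEnd n) (χ : L ≃ₗ[ℂ] SumHom a m n),
    IsEquivariant S.l S.r φ ψ χ

end Pool.Agent.Lib.MP_b9cab9_al
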