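import Pool.Agent.Lib.MP_b9cab9_al.Defs

/-!
The case of the diagram with two vertices and a double edge.
-/

set_option autoImplicit false

namespace Pool.Agent.Lib.MP_b9cab9_al

open MulOpposite Matrix

universe u v w

/-- In a weak `M`-structure, a pair `(a', b')` with `b' 1 = 1 a'` is a scalar. -/
theorem WeakMStructure.scalar_of_eq {A : Type u} {B : Type v} {L : Type w}
    [Ring A] [Algebra ℂ A] [Ring B] [Algebra ℂ B] [AddCommGroup L] [Module ℂ L]
    (S : WeakMStructure A B L) (a' : A) (b' : B)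
    (h : S.l b' S.one = S.r a' S.one) :
    ∃ c : ℂ, a' = algebraMap ℂ A c ∧ b' = algebraMap ℂ B c := by
  have hA : S.iA a' = S.r a' S.one := by
    have := S.mul_A 1 a'
    rw [one_mul, S.subspaces.one_A] at this
    exact this.symm
  have hB : S.iB b' = S.l b' S.one := by
    have := S.mul_B b' 1
    rw [mul_one, S.subspaces.one_B] at this
    exact this.symm
  obtain ⟨c, hc⟩ := S.subspaces.inter (S.iA a') ⟨a', rfl⟩ ⟨b', by rw [hA, hB, h]⟩
  refine ⟨c, ?_, ?_⟩
  · apply S.subspaces.injective_A
    rw [hc, ← S.subspaces.one_A, ← S.subspaces.linear_A.map_smul, Algebra.algebraMap_eq_smul_one]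
  · apply S.subspaces.injective_B
    rw [hB, h, ← hA, hc, ← S.subspaces.one_B, ← S.subspaces.linear_B.map_smul,
      Algebra.algebraMap_eq_smul_one]

/-- A rank one matrix of size at least `2` that is a scalar matrix is zero. -/
theorem scalar_rank_one {m : ℕ} (hm : 2 ≤ m) {v u : Fin m → ℂ} {c : ℂ}
    (h : vecMulVec v u = c • (1 : Matrix (Fin m) (Fin m) ℂ)) : c = 0 := by
  by_contra hc
  let i0 : Fin m := ⟨0, by omega⟩
  let i1 : Fin m := ⟨1, by omega⟩
  have hne : i0 ≠ i1 := by
    intro h'
    have := congrArg Fin.val h'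
    simp [i0, i1] at this
  have h0 : v i0 * u i0 = c := by
    have := congrFun (congrFun h i0) i0
    simpa [vecMulVec_apply] using this
  have h1 : v i1 * u i1 = c := by
    have := congrFun (congrFun h i1) i1
    simpa [vecMulVec_apply] using this
  have h01 : v i0 * u i1 = 0 := by
    have := congrFun (congrFun h i0) i1
    simpa [vecMulVec_apply, Matrix.one_apply_ne hne] using this
  rcases mul_eq_zero.mp h01 with h2 | h2
  · rw [h2, zero_mul] at h0
    exact hc h0.symm
  · rw [h2, mul_zero] at h1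
    exact hc h1.symm

/-- A Kronecker module of dimension vector `(m, m)` with `m ≥ 2` is not a brick. -/
theorem kronecker_not_brick {m : ℕ} (hm : 2 ≤ m) (f₁ f₂ : Matrix (Fin m) (Fin m) ℂ) :
    ∃ a b : Matrix (Fin m) (Fin m) ℂ, b * f₁ = f₁ * a ∧ b * f₂ = f₂ * a ∧
      ¬ ∃ c : ℂ, a = c • (1 : Matrix (Fin m) (Fin m) ℂ) ∧ b = c • (1 : Matrix (Fin m) (Fin m) ℂ) := by
  classical
  let i0 : Fin m := ⟨0, by omega⟩
  let i1 : Fin m := ⟨1, by omega⟩
  have hne : i0 ≠ i1 := by
    intro h'
    have := congrArg Fin.val h'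
    simp [i0, i1] at this
  by_cases hdet : IsUnit f₁.det
  · -- `f₁` is invertible
    by_cases hT : ∃ c : ℂ, f₁⁻¹ * f₂ = c • (1 : Matrix (Fin m) (Fin m) ℂ)
    · obtain ⟨c, hc⟩ := hT
      have hf2 : f₂ = c • f₁ := by
        have : f₁ * (f₁⁻¹ * f₂) = f₂ := by
          rw [← Matrix.mul_assoc, Matrix.mul_nonsing_inv _ hdet, Matrix.one_mul]
        rw [← this, hc, Matrix.mul_smul, Matrix.mul_one]
      refine ⟨vecMulVec (Pi.single i0 1) (Pi.single i0 1),
        f₁ * vecMulVec (Pi.single i0 1) (Pi.single i0 1) * f₁⁻¹, ?_, ?_, ?_⟩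
      · rw [Matrix.mul_assoc, Matrix.nonsing_inv_mul _ hdet, Matrix.mul_one]
      · rw [hf2, Matrix.mul_smul, Matrix.mul_assoc, Matrix.nonsing_inv_mul _ hdet, Matrix.mul_one,
          Matrix.smul_mul]
      · rintro ⟨d, hd, -⟩
        have hd0 := scalar_rank_one hm hd
        rw [hd0, zero_smul] at hd
        have := congrFun (congrFun hd i0) i0
        simp [vecMulVec_apply] at this
    · refine ⟨f₁⁻¹ * f₂, f₂ * f₁⁻¹, ?_, ?_, ?_⟩
      · rw [Matrix.mul_assoc, Matrix.nonsing_inv_mul _ hdet, Matrix.mul_one, ← Matrix.mul_assoc,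
          Matrix.mul_nonsing_inv _ hdet, Matrix.one_mul]
      · rw [Matrix.mul_assoc]
      · rintro ⟨c, hc, -⟩
        exact hT ⟨c, hc⟩
  · -- `f₁` is singular
    have hdet0 : f₁.det = 0 := by
      by_contra h
      exact hdet (isUnit_iff_ne_zero.mpr h)
    obtain ⟨v, hv0, hv⟩ := Matrix.exists_mulVec_eq_zero_iff.mpr hdet0
    obtain ⟨w, hw0, hw⟩ := Matrix.exists_vecMul_eq_zero_iff.mpr hdet0
    by_cases hzero : w ᵥ* f₂ = 0 ∧ f₂ *ᵥ v = 0
    · -- a common kernel vector
      refine ⟨vecMulVec v (Pi.single i0 1), 0, ?_, ?_, ?_⟩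
      · rw [Matrix.zero_mul, Matrix.mul_vecMulVec, hv]
        ext i j; simp [vecMulVec_apply]
      · rw [Matrix.zero_mul, Matrix.mul_vecMulVec, hzero.2]
        ext i j; simp [vecMulVec_apply]
      · rintro ⟨c, hc, -⟩
        have hc0 := scalar_rank_one hm hc
        rw [hc0, zero_smul] at hc
        apply hv0
        ext i
        have := congrFun (congrFun hc i) i0
        simpa [vecMulVec_apply] using this
    · refine ⟨vecMulVec v (w ᵥ* f₂), vecMulVec (f₂ *ᵥ v) w, ?_, ?_, ?_⟩
      · rw [Matrix.vecMulVec_mul, Matrix.mul_vecMulVec, hv, hw]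
        ext i j; simp [vecMulVec_apply]
      · rw [Matrix.vecMulVec_mul, Matrix.mul_vecMulVec]
      · rintro ⟨c, hc, hc'⟩
        have hc0 := scalar_rank_one hm hc
        rw [hc0, zero_smul] at hc hc'
        apply hzero
        constructor
        · obtain ⟨i, hi⟩ := Function.ne_iff.mp hv0
          ext j
          have := congrFun (congrFun hc i) j
          rw [vecMulVec_apply] at this
          rcases mul_eq_zero.mp this with h | h
          · exact absurd h hi
          · exact h
        · obtain ⟨j, hj⟩ := Function.ne_iff.mp hw0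
          ext i
          have := congrFun (congrFun hc' i) j
          rw [vecMulVec_apply] at this
          rcases mul_eq_zero.mp this with h | h
          · exact h
          · exact absurd h hj

/-- No weak `M`-structure corresponds to the double edge diagram with multiple `m ≥ 2`. -/
theorem no_kronecker {A : Type u} {B : Type v} {L : Type w}
    [Ring A] [Algebra ℂ A] [Ring B] [Algebra ℂ B] [AddCommGroup L] [Module ℂ L]
    (S : WeakMStructure A B L) (m : ℕ) (hm : 2 ≤ m) :
    ¬ S.HasMultiplicities (r := 1) (s := 1) (fun _ _ => 2) (fun _ => m) (fun _ => m) := by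
  rintro ⟨φ, ψ, χ, hequi⟩
  obtain ⟨a, b, h1, h2, hns⟩ := kronecker_not_brick hm (χ S.one 0 0 0) (χ S.one 0 0 1)
  have key : S.l (ψ.symm fun _ => b) S.one = S.r (φ.symm fun _ => a) S.one := by
    apply χ.injective
    funext i j e
    rw [(hequi i j e S.one).1, (hequi i j e S.one).2]
    simp only [AlgEquiv.apply_symm_apply]
    have hi : i = 0 := Subsingleton.elim _ _
    have hj : j = 0 := Subsingleton.elim _ _
    subst hi
    subst hj
    fin_cases e
    · exact h1
    · exact h2
  obtain ⟨c, hc1, hc2⟩ := S.scalar_of_eq _ _ key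
  apply hns
  refine ⟨c, ?_, ?_⟩
  · have := congrArg φ hc1
    rw [AlgEquiv.apply_symm_apply, AlgEquiv.commutes] at this
    have h3 := congrFun this 0
    rw [h3]
    ext i j
    simp [Matrix.algebraMap_matrix_apply, Matrix.one_apply]
  · have := congrArg ψ hc2
    rw [AlgEquiv.apply_symm_apply, AlgEquiv.commutes] at this
    have h3 := congrFun this 0
    rw [h3]
    ext i j
    simp [Matrix.algebraMap_matrix_apply, Matrix.one_apply]

end Pool.Agent.Lib.MP_b9cab9_al
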